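import Pool.Agent.X171.WS.Weak

/-!
# A compact weakly supercyclic operator that is not supercyclic
-/

set_option autoImplicit false

open Set Metric Filter Topology ZeroAtInfty

namespace Pool.Agent.Results.MP_32446a_an.CompactWeaklySupercyclic

open Pool.Agent.X171.WS

/-- The standing hypothesis (H): `T` commutes with a compact operator with dense range. -/
def HypH (𝕜 : Type*) [RCLike 𝕜] {X : Type*} [NormedAddCommGroup X] [NormedSpace 𝕜 X]
    (T : X →L[𝕜] X) : Prop :=
  ∃ S : X →L[𝕜] X, IsCompactOperator S ∧ DenseRange S ∧ T * S = S * T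

/-- On the real or complex Banach space `c₀(ℤ)` there is a compact operator `T` with dense range
(a bilateral weighted shift) that is weakly supercyclic but not supercyclic. -/
theorem result (𝕜 : Type) [RCLike 𝕜] :
    ∃ T : C₀(ℤ, 𝕜) →L[𝕜] C₀(ℤ, 𝕜), IsCompactOperator T ∧ DenseRange T ∧ HypH 𝕜 T ∧
      WeaklySupercyclic 𝕜 T ∧ ¬ Supercyclic 𝕜 T :=
  ⟨T 𝕜, isCompactOperator_T 𝕜, denseRange_T 𝕜,
    ⟨T 𝕜, isCompactOperator_T 𝕜, denseRange_T 𝕜, rfl⟩, weaklySupercyclic_T, not_supercyclic_T 𝕜⟩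

end Pool.Agent.Results.MP_32446a_an.CompactWeaklySupercyclic
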